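import Mathlib
import Pool.Agent.Y973.BR.Main

/-!
# A paracompact topological group no nonempty open subspace of which is base resolvable
-/

set_option autoImplicit false

open TopologicalSpace Set

namespace Pool.Agent.Results.MP_bab9cd_gt.NowhereResolvableGroup

/-- A space is base resolvable if every base is the union of two disjoint subfamilies that are both
bases. -/
def BaseResolvable (X : Type) [TopologicalSpace X] : Prop :=
  ∀ B : Set (Set X), IsTopologicalBasis B → ∃ B₀ B₁ : Set (Set X), B₀ ∪ B₁ = B ∧ B₀ ∩ B₁ = ∅ ∧
    IsTopologicalBasis B₀ ∧ IsTopologicalBasis B₁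

/-- There are abelian topological groups `K` and `Y` of exponent two, `K` compact Hausdorff and `Y`
completely metrizable, such that the topological group `X = K × Y` is paracompact Hausdorff, has a
base of clopen sets and no isolated points, and no nonempty open subspace of `X` (in particular not
`X` itself) is base resolvable. -/
theorem result :
    ∃ (K Y : Type) (_ : AddCommGroup K) (_ : TopologicalSpace K) (_ : AddCommGroup Y)
      (_ : TopologicalSpace Y),
      IsTopologicalAddGroup K ∧ IsTopologicalAddGroup Y ∧ CompactSpace K ∧ T2Space K ∧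
      IsCompletelyMetrizableSpace Y ∧ IsTopologicalAddGroup (K × Y) ∧
      T2Space (K × Y) ∧ ParacompactSpace (K × Y) ∧
      (∀ x : K × Y, x + x = 0) ∧
      IsTopologicalBasis {s : Set (K × Y) | IsClopen s} ∧
      (∀ x : K × Y, ¬ IsOpen ({x} : Set (K × Y))) ∧
      ¬ BaseResolvable (K × Y) ∧
      ∀ U : Set (K × Y), IsOpen U → U.Nonempty → ¬ BaseResolvable U := by
  let _ : MetricSpace Pool.Agent.Results.MP_bab9cd_gt.CompactTimesMetrizable.Y :=
    metrizableSpaceMetric _
  refine ⟨Pool.Agent.Results.MP_bab9cd_gt.CompactTimesMetrizable.K,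
    Pool.Agent.Results.MP_bab9cd_gt.CompactTimesMetrizable.Y, inferInstance, inferInstance,
    inferInstance, inferInstance, inferInstance, inferInstance, inferInstance, inferInstance,
    inferInstance, inferInstance, inferInstance, inferInstance,
    Pool.Agent.Y973.BR.add_self_prod, Pool.Agent.Y973.BR.isBasis_clopen,
    Pool.Agent.Results.MP_bab9cd_gt.CompactTimesMetrizable.denseInItself_prod, ?_,
    Pool.Agent.Y973.BR.no_open_resolvable⟩
  intro h
  exact Pool.Agent.Results.MP_bab9cd_gt.CompactTimesMetrizable.not_resolvable
    (h _ Pool.Agent.Results.MP_bab9cd_gt.CompactTimesMetrizable.isBasis_Bs)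

end Pool.Agent.Results.MP_bab9cd_gt.NowhereResolvableGroup
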